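import Mathlib
import Pool.Agent.Helper892.ST.Plc

/-!
# The error term of Vojta's inequality on superelliptic curves over the rational numbers

`N ≥ 2`, `e ≥ 1`, `F` is a polynomial over `ℚ` of degree at most `N e` with `F(1) = 0`, `X` the smooth
projective curve with the equation `w ^ N = F(t)` and `D` the divisor `t^*(0) + t^*(∞)`. If `F` has
degree `N e` and no multiple roots and `F(0) ≠ 0`, then `X` has genus `1 - N + N (N - 1) e / 2`, `D` is
reduced of degree `2 N`, `K_X ~ ((N - 1) e - 2) t^*(∞)` and `A = K_X + D ~ (N - 1) e t^*(∞)` is ample: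
`h_{K_X}(P) = ((N - 1) e - 2) h(t(P))` and `h_A(P) = (N - 1) e h(t(P))`. (Any root of `F` in `ℚ`,
different from `0`, can be moved to `1` by a change of the coordinate `t`, which does not change `D`.)

The theorem: for every finite set `T ≠ ∅` of primes and `S = {∞} ∪ T` there are points `x` of degree at
most `N` and arbitrarily large height with
`∑_{v ∈ S} λ_{D,v}(x) + h_{K_X}(x) - d(x) ≥ (1 - 1 / N) |T| log h_A(x) - C`. So in the conjecture for
`X`, `D` and `r = N` the term `ε h_A(x)` cannot be replaced by `q log h_A(x)` with a number `q` which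
does not depend on `S`.

Proof. Let `p₀` be a prime outside `T`. By the pigeonhole principle there are coprime `a > b`, products
of powers of the primes in `T` with exponents at most `A`, which are congruent modulo `p₀ ^ m`, where
`m log p₀` is about `|T| log A`. We take the points over `t = a / b`. As `t` is a unit outside `T`, the
proximity function is `2 h(t)`. The field is generated by an `N`-th root of an integer which is
smaller than expected by the factor `p₀ ^ m`, because `F(1) = 0`; this gives
`d(x) ≤ h_A(x) - (1 - 1 / N) m log p₀ + O(1)`.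
-/

set_option autoImplicit false

open NumberField Polynomial IsDedekindDomain

namespace Pool.Agent.Results.MP_651af7_nt.SuperellipticPlaces

section

variable {L : Type} [Field L] [NumberField L]

/-- The absolute height of `t`. -/
noncomputable def height (t : L) : ℝ :=
  Height.logHeight₁ t / Module.finrank ℚ L

/-- The logarithmic discriminant `d(L) = log |disc L| / [L : ℚ]`. -/
noncomputable def logDisc (L : Type) [Field L] [NumberField L] : ℝ :=
  Real.log |(discr L : ℝ)| / Module.finrank ℚ L

/-- The primes of `L` above the primes in `T`. -/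
def primesAbove (T : Finset ℕ) (L : Type) [Field L] [NumberField L] :
    Set (HeightOneSpectrum (𝓞 L)) :=
  {q | ∃ p ∈ T, ((p : ℕ) : 𝓞 L) ∈ q.asIdeal}

/-- The proximity function `∑_{v ∈ S} λ_{D,v}(P)`, `S = {∞} ∪ T`, `D = t^*(0) + t^*(∞)`, of a point
over `L` with `t = t(P)`: the sum of the local heights `log⁺ |t|_v + log⁺ |1 / t|_v` over the infinite
places `v` of `L` (with the factor `[L_v : ℝ]`) and the primes of `L` above `T` (with the absolute
value `|t|_q = N(q) ^ (- ord_q t)`), divided by `[L : ℚ]`. -/
noncomputable def proximity (T : Finset ℕ) (t : L) : ℝ :=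
  (∑ v : InfinitePlace L, (v.mult : ℝ) * (Real.posLog (v t) + Real.posLog (v t⁻¹)) +
    ∑ᶠ q ∈ primesAbove T L, (Real.posLog (HeightOneSpectrum.adicAbv L q t) +
      Real.posLog (HeightOneSpectrum.adicAbv L q t⁻¹))) / Module.finrank ℚ L

end

/-- **Vojta's inequality on superelliptic curves: the error term depends on `S`.** Let `N ≥ 2`,
`e ≥ 1`, `F ≠ 0` a polynomial over `ℚ` of degree at most `N e` with `F(1) = 0`, `X : w ^ N = F(t)`,
`D = t^*(0) + t^*(∞)`, `T` a nonempty finite set of primes and `S = {∞} ∪ T`. There is a constant `C`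
such that for every `B` there is a closed point `P = (t, w)` of `X` of degree at most `N`, with residue
field `L`, such that `h_A(P) = (N - 1) e h(t) > B` and
`∑_{v ∈ S} λ_{D,v}(P) + ((N - 1) e - 2) h(t) - d(L) ≥ (1 - 1 / N) |T| log h_A(P) - C`. -/
theorem result (N e : ℕ) (hN : 2 ≤ N) (he : 1 ≤ e) (F : ℚ[X]) (hF0 : F ≠ 0) (hF1 : F.eval 1 = 0)
    (hF : F.natDegree ≤ N * e) (T : Finset ℕ) (hT : ∀ p ∈ T, p.Prime) (hT0 : T.Nonempty) :
    ∃ C : ℝ, ∀ B : ℝ, ∃ (L : Type) (_ : Field L) (_ : NumberField L) (t w : L),
      w ^ N = aeval t F ∧ IntermediateField.adjoin ℚ {t, w} = ⊤ ∧ Module.finrank ℚ L ≤ N ∧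
      B < (N - 1) * e * height t ∧
      (1 - 1 / N) * T.card * Real.log ((N - 1) * e * height t) - C ≤
        proximity T t + ((N - 1) * e - 2) * height t - logDisc L := by
  obtain ⟨C, hC⟩ := Pool.Agent.Helper892.ST.main51 F hF0 hF1 hN he hF T hT hT0
  refine ⟨C, fun B => ?_⟩
  obtain ⟨L, iF, iN, u, w, hw, htop, hdeg, hq, hB, h⟩ := hC (max B 0)
  have hh : height (algebraMap ℚ L u) = Height.logHeight₁ u :=
    Pool.Agent.Helper892.VE.lH_eq L u
  have hNr : (2 : ℝ) ≤ N := by exact_mod_cast hN
  have her : (1 : ℝ) ≤ e := by exact_mod_cast he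
  have hLpos : (0 : ℝ) < Module.finrank ℚ L := by exact_mod_cast Module.finrank_pos
  have hprox : proximity T (algebraMap ℚ L u) = 2 * Height.logHeight₁ u := by
    have h1 := Pool.Agent.Helper892.ST.prox_eq hT (algebraMap ℚ L u) hq
    have h2 : proximity T (algebraMap ℚ L u) =
        2 * Height.logHeight₁ (algebraMap ℚ L u) / Module.finrank ℚ L := by
      rw [← h1]
      rfl
    rw [h2, ← hh]
    unfold height
    ring
  have hld : logDisc L = Pool.Agent.Helper892.VE.lD ℚ L := by
    unfold logDisc Pool.Agent.Helper892.VE.lD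
    rw [Rat.numberField_discr]
    simp
  refine ⟨L, iF, iN, algebraMap ℚ L u, w, ?_, ?_, hdeg, ?_, ?_⟩
  · rw [hw, aeval_algebraMap_apply, coe_aeval_eq_eval]
  · rw [eq_top_iff, ← htop]
    exact IntermediateField.adjoin.mono ℚ _ _ (by
      rw [Set.singleton_subset_iff]
      exact Set.mem_insert_of_mem _ rfl)
  · rw [hh]
    have h0 : 0 < Height.logHeight₁ u := lt_of_le_of_lt (le_max_right _ _) hB
    have h1 : B < Height.logHeight₁ u := lt_of_le_of_lt (le_max_left _ _) hB
    have h2 : (1 : ℝ) ≤ (N - 1) * e := by nlinarith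
    nlinarith
  · rw [hh, hprox, hld]
    have e1 : (1 - 1 / N : ℝ) = (N - 1) / N := by field_simp
    rw [e1]
    linarith

end Pool.Agent.Results.MP_651af7_nt.SuperellipticPlaces
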